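import Pool.Agent.Lib.MP_2e793b_nt.Iface

/-!
MP_2e793b_nt, module NF: normal form of the prefixes of a word generated by a morphism of at most
quadratic growth (from CNT and PER).
-/

set_option autoImplicit false

namespace Pool.Agent.Lib.MP_2e793b_nt.H22

open Pool.Agent.Lib.MP_2e793b_nt

theorem iter_nil {k : ℕ} (σ : Fin k → List (Fin k)) (n : ℕ) : (F σ)^[n] [] = [] := by
  induction n with
  | zero => rfl
  | succ n ih =>
    rw [Function.iterate_succ_apply]
    exact ih

theorem iter_append {k : ℕ} (σ : Fin k → List (Fin k)) (n : ℕ) (u v : List (Fin k)) :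
    (F σ)^[n] (u ++ v) = (F σ)^[n] u ++ (F σ)^[n] v := by
  induction n generalizing u v with
  | zero => rfl
  | succ n ih =>
    rw [Function.iterate_succ_apply, Function.iterate_succ_apply, Function.iterate_succ_apply]
    have h : F σ (u ++ v) = F σ u ++ F σ v := List.flatMap_append
    rw [h, ih]

/-- powers of `G = F^P` -/
theorem gpow_append {k : ℕ} (σ : Fin k → List (Fin k)) (P m : ℕ) (u v : List (Fin k)) :
    ((F σ)^[P])^[m] (u ++ v) = ((F σ)^[P])^[m] u ++ ((F σ)^[P])^[m] v := by
  rw [← Function.iterate_mul]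
  exact iter_append σ _ u v

theorem gpow_nil {k : ℕ} (σ : Fin k → List (Fin k)) (P m : ℕ) :
    ((F σ)^[P])^[m] [] = [] := by
  rw [← Function.iterate_mul]
  exact iter_nil σ _

/-- the prefixes -/
theorem prefix_add {k : ℕ} (σ : Fin k → List (Fin k)) {a : Fin k} {w : List (Fin k)}
    (ha : σ a = a :: w) (n Q : ℕ) :
    (F σ)^[n + Q] [a] = (F σ)^[n] [a] ++ (List.range Q).flatMap (fun i => (F σ)^[n + i] w) := by
  induction Q with
  | zero => simp
  | succ Q ih =>
    have h1 : F σ [a] = [a] ++ w := by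
      show [a].flatMap σ = [a] ++ w
      simp [ha]
    have h2 : (F σ)^[n + (Q + 1)] [a] = (F σ)^[n + Q] [a] ++ (F σ)^[n + Q] w := by
      rw [← add_assoc, Function.iterate_succ_apply, h1, iter_append]
    rw [h2, ih, List.range_succ, List.flatMap_append, List.append_assoc]
    simp

theorem blk_append {α : Type} (u v : List (List α × List α)) (m : ℕ) :
    blk (u ++ v) m = blk u m ++ blk v m := List.flatMap_append

theorem blk_nil {α : Type} (m : ℕ) : blk ([] : List (List α × List α)) m = [] := rfl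

theorem fixed_pow {β : Type} {G : β → β} {y : β} (h : G (G y) = G y) (m : ℕ) :
    G^[m + 1] y = G y := by
  induction m with
  | zero => rfl
  | succ m ih => rw [Function.iterate_succ_apply', ih, h]

/-- one letter -/
theorem letter {k : ℕ} (σ : Fin k → List (Fin k)) (P : ℕ) (y : Fin k)
    (h : ((F σ)^[P] ((F σ)^[P] [y]) = (F σ)^[P] [y]) ∨
      ∃ p s : List (Fin k), (F σ)^[P] [y] = p ++ [y] ++ s ∧
        (F σ)^[P] ((F σ)^[P] p) = (F σ)^[P] p ∧ (F σ)^[P] ((F σ)^[P] s) = (F σ)^[P] s) :
    ∃ zs : List (List (Fin k) × List (Fin k)), ∀ m : ℕ,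
      ((F σ)^[P])^[m + 1] [y] = blk zs m := by
  rcases h with h | ⟨p, s, h, hp, hs⟩
  · refine ⟨[((F σ)^[P] [y], [])], fun m => ?_⟩
    rw [fixed_pow h]
    simp [blk]
  · refine ⟨[([], (F σ)^[P] p), (p ++ [y] ++ s, (F σ)^[P] s)], fun m => ?_⟩
    have e : blk [(([] : List (Fin k)), (F σ)^[P] p), (p ++ [y] ++ s, (F σ)^[P] s)] m =
        (List.replicate m ((F σ)^[P] p)).flatten ++ (p ++ [y] ++ s) ++
          (List.replicate m ((F σ)^[P] s)).flatten := by
      simp [blk]
    rw [e]
    induction m with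
    | zero => simpa using h
    | succ m ih =>
      rw [Function.iterate_succ_apply, h, gpow_append, gpow_append, fixed_pow hp, fixed_pow hs,
        ih (by simp [blk]), List.replicate_succ, List.flatten_cons, List.replicate_succ',
        List.flatten_append]
      simp

/-- one word -/
theorem word {k : ℕ} (σ : Fin k → List (Fin k)) (P : ℕ) (l : List (Fin k))
    (h : ∀ y ∈ l, ((F σ)^[P] ((F σ)^[P] [y]) = (F σ)^[P] [y]) ∨
      ∃ p s : List (Fin k), (F σ)^[P] [y] = p ++ [y] ++ s ∧
        (F σ)^[P] ((F σ)^[P] p) = (F σ)^[P] p ∧ (F σ)^[P] ((F σ)^[P] s) = (F σ)^[P] s) :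
    ∃ zs : List (List (Fin k) × List (Fin k)), ∀ m : ℕ,
      ((F σ)^[P])^[m + 1] l = blk zs m := by
  induction l with
  | nil => exact ⟨[], fun m => by rw [gpow_nil, blk_nil]⟩
  | cons y l ih =>
    obtain ⟨z1, h1⟩ := letter σ P y (h y (by simp))
    obtain ⟨z2, h2⟩ := ih (fun x hx => h x (by simp [hx]))
    refine ⟨z1 ++ z2, fun m => ?_⟩
    rw [blk_append, ← h1, ← h2, ← gpow_append]
    rfl

/-- the words of one period -/
theorem period {k : ℕ} (σ : Fin k → List (Fin k)) (P Q : ℕ) (g : ℕ → List (Fin k))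
    (h : ∀ i : ℕ, ∀ y ∈ g i, ((F σ)^[P] ((F σ)^[P] [y]) = (F σ)^[P] [y]) ∨
      ∃ p s : List (Fin k), (F σ)^[P] [y] = p ++ [y] ++ s ∧
        (F σ)^[P] ((F σ)^[P] p) = (F σ)^[P] p ∧ (F σ)^[P] ((F σ)^[P] s) = (F σ)^[P] s) :
    ∃ zs : List (List (Fin k) × List (Fin k)), ∀ m : ℕ,
      (List.range Q).flatMap (fun i => ((F σ)^[P])^[m + 1] (g i)) = blk zs m := by
  induction Q with
  | zero => exact ⟨[], fun m => by simp [blk]⟩
  | succ Q ih =>
    obtain ⟨z1, h1⟩ := ih
    obtain ⟨z2, h2⟩ := word σ P (g Q) (h Q)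
    refine ⟨z1 ++ z2, fun m => ?_⟩
    rw [List.range_succ, List.flatMap_append, h1, blk_append, ← h2]
    simp

theorem length_flat {α : Type} (g : ℕ → List α) (n : ℕ) :
    ((List.range n).flatMap g).length = ∑ j ∈ Finset.range n, (g j).length := by
  induction n with
  | zero => simp
  | succ n ih =>
    rw [List.range_succ, List.flatMap_append, List.length_append, ih, Finset.sum_range_succ]
    simp

/-- NF. -/
theorem nf (hC : CntStmt) (hP : PerStmt) : NfStmt := by
  intro k σ a w K ha hK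
  have hw : ∀ n : ℕ, ∑ j ∈ Finset.range n, ((F σ)^[j] w).length ≤ K * (n + 1) ^ 2 := by
    intro n
    refine le_trans ?_ (hK n)
    have h1 := prefix_add σ ha 0 n
    rw [zero_add] at h1
    rw [h1, List.length_append, length_flat]
    simp
  obtain ⟨J, P, hP1, hJ⟩ := hP k σ w (hC k σ w K hw)
  obtain ⟨zy, hz⟩ := period σ P P (fun i => (F σ)^[J + i] w)
    (fun i => hJ (J + i) (Nat.le_add_right _ _))
  refine ⟨(F σ)^[J + P] [a], zy, fun M => J + P + P * M, fun M => ?_, fun M => ?_⟩
  · show M ≤ J + P + P * M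
    nlinarith
  · show (F σ)^[J + P + P * M] [a] = _
    induction M with
    | zero => simp [MP_2e793b_nt.nf]
    | succ M ih =>
      have e1 : J + P + P * (M + 1) = (J + P + P * M) + P := by ring
      rw [e1, prefix_add σ ha, ih]
      unfold MP_2e793b_nt.nf
      rw [List.range_succ, List.flatMap_append, List.append_assoc]
      congr 2
      simp only [List.flatMap_cons, List.flatMap_nil, List.append_nil]
      rw [← hz M]
      refine List.flatMap_congr ?_
      intro i _
      rw [← Function.iterate_mul, ← Function.iterate_add_apply]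
      congr 1
      ring

end Pool.Agent.Lib.MP_2e793b_nt.H22
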